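import Pool.Agent.helper68.SF.SpecE

/-!
# se:SQ the inequality of Poincaré on a rectangle
-/

set_option autoImplicit false

namespace SF

open MeasureTheory Set
open scoped ContDiff

/-- Cauchy-Schwarz for a finite measure. -/
theorem SQ_cs {α : Type} [MeasurableSpace α] (μ : Measure α) [IsFiniteMeasure μ] (g : α → ℝ)
    (L : ℝ) (hL : 0 < L) (hμ : μ.real univ = L) (hg : Integrable g μ)
    (hg2 : Integrable (fun x => g x ^ 2) μ) : (∫ x, g x ∂μ) ^ 2 ≤ L * ∫ x, g x ^ 2 ∂μ := by
  set A := ∫ x, g x ∂μ with hA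
  have h0 : 0 ≤ ∫ x, (g x - A / L) ^ 2 ∂μ := integral_nonneg fun x => sq_nonneg _
  have h1 : ∫ x, (g x - A / L) ^ 2 ∂μ = ∫ x, g x ^ 2 ∂μ - 2 * (A / L) * A + (A / L) ^ 2 * L := by
    have h2 : (fun x => (g x - A / L) ^ 2) =
        fun x => (g x ^ 2 - 2 * (A / L) * g x) + (A / L) ^ 2 := by
      funext x
      ring
    have h3 : Integrable (fun x => g x ^ 2 - 2 * (A / L) * g x) μ := hg2.sub (hg.const_mul _)
    have h4 : Integrable (fun x => 2 * (A / L) * g x) μ := hg.const_mul _
    rw [h2, integral_add h3 (integrable_const _),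
      integral_sub hg2 h4, integral_const_mul, integral_const, hμ, smul_eq_mul]
    ring
  rw [h1] at h0
  have h3 : ∫ x, g x ^ 2 ∂μ - 2 * (A / L) * A + (A / L) ^ 2 * L = ∫ x, g x ^ 2 ∂μ - A ^ 2 / L := by
    field_simp
    ring
  rw [h3] at h0
  have h4 : A ^ 2 / L ≤ ∫ x, g x ^ 2 ∂μ := by linarith
  rw [div_le_iff₀ hL] at h4
  linarith

theorem SQ_csI (c L : ℝ) (hL : 0 < L) (g : ℝ → ℝ) (hg : ContinuousOn g (Icc c (c + L))) :
    (∫ t in Icc c (c + L), g t) ^ 2 ≤ L * ∫ t in Icc c (c + L), g t ^ 2 := by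
  have h1 : (volume.restrict (Icc c (c + L))).real univ = L := by
    rw [measureReal_restrict_apply_univ, Real.volume_real_Icc_of_le (by linarith)]
    ring
  exact SQ_cs _ g L hL h1 (hg.integrableOn_compact isCompact_Icc)
    ((hg.pow 2).integrableOn_compact isCompact_Icc)

/-- the difference of two values -/
theorem SQ_p1 (c L : ℝ) (hL : 0 < L) (f f' : ℝ → ℝ) (hf' : ContinuousOn f' (Icc c (c + L)))
    (hf : ∀ t ∈ Icc c (c + L), HasDerivAt f (f' t) t) (u v : ℝ) (hu : u ∈ Icc c (c + L))
    (hv : v ∈ Icc c (c + L)) : (f u - f v) ^ 2 ≤ L * ∫ t in Icc c (c + L), f' t ^ 2 := by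
  wlog huv : v ≤ u generalizing u v
  · have h1 := this v u hv hu (le_of_not_ge huv)
    have h2 : (f u - f v) ^ 2 = (f v - f u) ^ 2 := by ring
    rw [h2]
    exact h1
  have hnn : 0 ≤ ∫ t in Icc c (c + L), f' t ^ 2 := integral_nonneg fun t => sq_nonneg _
  rcases huv.eq_or_lt with rfl | hlt
  · rw [sub_self]
    have : (0 : ℝ) ^ 2 = 0 := by norm_num
    rw [this]
    exact mul_nonneg hL.le hnn
  have hsub : Icc v u ⊆ Icc c (c + L) := Icc_subset_Icc hv.1 hu.2
  have h1 : ∫ t in v..u, f' t = f u - f v := by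
    refine intervalIntegral.integral_eq_sub_of_hasDerivAt (fun t ht => ?_) ?_
    · rw [uIcc_of_le huv] at ht
      exact hf t (hsub ht)
    · refine ContinuousOn.intervalIntegrable ?_
      rw [uIcc_of_le huv]
      exact hf'.mono hsub
  have h2 : ∫ t in v..u, f' t = ∫ t in Icc v u, f' t := by
    rw [intervalIntegral.integral_of_le huv, integral_Icc_eq_integral_Ioc]
  have h3 := SQ_csI v (u - v) (by linarith) f' (by
    have : v + (u - v) = u := by ring
    rw [this]
    exact hf'.mono hsub)
  have h4 : v + (u - v) = u := by ring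
  rw [h4, ← h2, h1] at h3
  refine h3.trans (mul_le_mul (by linarith [hu.2, hv.1]) ?_ (integral_nonneg fun t => sq_nonneg _)
    hL.le)
  exact setIntegral_mono_set ((hf'.pow 2).integrableOn_compact isCompact_Icc)
    (Filter.Eventually.of_forall fun t => sq_nonneg _) hsub.eventuallyLE

/-- distance from the average -/
theorem SQ_avg (c L K : ℝ) (hL : 0 < L) (F : ℝ → ℝ) (hF : ContinuousOn F (Icc c (c + L))) (z : ℝ)
    (hK : ∀ t ∈ Icc c (c + L), (z - F t) ^ 2 ≤ K) :
    (z - 1 / L * ∫ t in Icc c (c + L), F t) ^ 2 ≤ K := by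
  have hc : ContinuousOn (fun t => z - F t) (Icc c (c + L)) := continuousOn_const.sub hF
  have h1 := SQ_csI c L hL (fun t => z - F t) hc
  have hvol : volume.real (Icc c (c + L)) = L := by
    rw [Real.volume_real_Icc_of_le (by linarith)]
    ring
  have h2 : ∫ t in Icc c (c + L), (z - F t) = L * (z - 1 / L * ∫ t in Icc c (c + L), F t) := by
    rw [integral_sub (continuousOn_const.integrableOn_compact isCompact_Icc)
      (hF.integrableOn_compact isCompact_Icc), setIntegral_const, hvol, smul_eq_mul]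
    field_simp
  have h3 : ∫ t in Icc c (c + L), (z - F t) ^ 2 ≤ L * K := by
    have h4 : ∫ t in Icc c (c + L), (z - F t) ^ 2 ≤ ∫ _t in Icc c (c + L), K :=
      setIntegral_mono_on ((hc.pow 2).integrableOn_compact isCompact_Icc)
        (continuousOn_const.integrableOn_compact isCompact_Icc) measurableSet_Icc hK
    rwa [setIntegral_const, hvol, smul_eq_mul] at h4
  rw [h2] at h1
  have h5 : (L * (z - 1 / L * ∫ t in Icc c (c + L), F t)) ^ 2 ≤ L * (L * K) :=
    h1.trans (mul_le_mul_of_nonneg_left h3 hL.le)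
  have h6 : L ^ 2 * (z - 1 / L * ∫ t in Icc c (c + L), F t) ^ 2 ≤ L ^ 2 * K := by
    nlinarith
  exact le_of_mul_le_mul_left h6 (by positivity)

theorem SQ : SQ_stmt := by
  intro h a b η η' hη hη' hb hs
  set I : Set ℝ := Icc a (a + η) with hI
  set J : Set ℝ := Icc b (b + η') with hJ
  have hU : IsOpen {p : ℝ × ℝ | 0 < p.2} := isOpen_lt continuous_const continuous_snd
  have hJpos : ∀ y ∈ J, 0 < y := fun y hy => lt_of_lt_of_le hb hy.1
  have hRU : I ×ˢ J ⊆ {p : ℝ × ℝ | 0 < p.2} := fun p hp => hJpos p.2 hp.2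
  have hRc : IsCompact (I ×ˢ J) := isCompact_Icc.prod isCompact_Icc
  have hfd : ContinuousOn (fderiv ℝ h) {p : ℝ × ℝ | 0 < p.2} :=
    hs.continuousOn_fderiv_of_isOpen hU (by norm_cast)
  have hhc : ContinuousOn h {p : ℝ × ℝ | 0 < p.2} := hs.continuousOn
  have hxc : ContinuousOn (px h) {p : ℝ × ℝ | 0 < p.2} := hfd.clm_apply continuousOn_const
  have hyc : ContinuousOn (py h) {p : ℝ × ℝ | 0 < p.2} := hfd.clm_apply continuousOn_const
  have hdiff : ∀ x y : ℝ, 0 < y → HasFDerivAt h (fderiv ℝ h (x, y)) (x, y) := by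
    intro x y hy
    exact ((hs.contDiffAt (hU.mem_nhds hy)).differentiableAt (by norm_num)).hasFDerivAt
  have hdx : ∀ x y : ℝ, 0 < y → HasDerivAt (fun t => h (t, y)) (px h (x, y)) x := by
    intro x y hy
    exact (hdiff x y hy).comp_hasDerivAt x ((hasDerivAt_id x).prodMk (hasDerivAt_const x y))
  have hdy : ∀ x y : ℝ, 0 < y → HasDerivAt (fun t => h (x, t)) (py h (x, y)) y := by
    intro x y hy
    exact (hdiff x y hy).comp_hasDerivAt y ((hasDerivAt_const y x).prodMk (hasDerivAt_id y))
  have hinc1 : ∀ (F : ℝ × ℝ → ℝ), ContinuousOn F {p : ℝ × ℝ | 0 < p.2} → ∀ x : ℝ,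
      ContinuousOn (fun y => F (x, y)) J := by
    intro F hF x
    exact hF.comp (continuous_const.prodMk continuous_id).continuousOn fun y hy => hJpos y hy
  have hinc2 : ∀ (F : ℝ × ℝ → ℝ), ContinuousOn F {p : ℝ × ℝ | 0 < p.2} → ∀ y ∈ J,
      ContinuousOn (fun x => F (x, y)) I := by
    intro F hF y hy
    exact hF.comp (continuous_id.prodMk continuous_const).continuousOn fun x _ => hJpos y hy
  have hint : ∀ F : ℝ × ℝ → ℝ, ContinuousOn F (I ×ˢ J) →
      Integrable F ((volume.restrict I).prod (volume.restrict J)) := by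
    intro F hF
    rw [Measure.prod_restrict, ← Measure.volume_eq_prod]
    exact hF.integrableOn_compact hRc
  have hfub : ∀ F : ℝ × ℝ → ℝ, ∫ p in I ×ˢ J, F p =
      ∫ p, F p ∂((volume.restrict I).prod (volume.restrict J)) := by
    intro F
    rw [Measure.prod_restrict, ← Measure.volume_eq_prod]
  have hvI : volume.real I = η := by
    rw [hI, Real.volume_real_Icc_of_le (by linarith)]
    ring
  have hvJ : volume.real J = η' := by
    rw [hJ, Real.volume_real_Icc_of_le (by linarith)]
    ring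
  have hvR : ((volume.restrict I).prod (volume.restrict J)).real univ = η * η' := by
    rw [← univ_prod_univ, measureReal_prod_prod, measureReal_restrict_apply_univ,
      measureReal_restrict_apply_univ, hvI, hvJ]
  have hhR : ContinuousOn h (I ×ˢ J) := hhc.mono hRU
  have hxR : ContinuousOn (px h) (I ×ˢ J) := hxc.mono hRU
  have hyR : ContinuousOn (py h) (I ×ˢ J) := hyc.mono hRU
  have hx2 : ContinuousOn (fun p => px h p ^ 2) (I ×ˢ J) := hxR.pow 2
  have hy2 : ContinuousOn (fun p => py h p ^ 2) (I ×ˢ J) := hyR.pow 2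
  set A : ℝ := ∫ p in I ×ˢ J, px h p ^ 2 with hA
  set B : ℝ := ∫ p in I ×ˢ J, py h p ^ 2 with hB
  set m : ℝ := 1 / (η * η') * ∫ q in I ×ˢ J, h q with hm
  let M : ℝ → ℝ := fun x => 1 / η' * ∫ y in J, h (x, y)
  let G : ℝ → ℝ := fun x => ∫ y in J, py h (x, y) ^ 2
  let H : ℝ → ℝ := fun y => ∫ x in I, px h (x, y) ^ 2
  have hA0 : 0 ≤ A := integral_nonneg fun p => sq_nonneg _
  have hB0 : 0 ≤ B := integral_nonneg fun p => sq_nonneg _
  have hAH : A = ∫ y in J, H y := by
    rw [hA, hfub, integral_prod_symm _ (hint _ hx2)]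
  have hBG : B = ∫ x in I, G x := by
    rw [hB, hfub, integral_prod _ (hint _ hy2)]
  have hHint : Integrable H (volume.restrict J) := (hint _ hx2).integral_prod_right
  have hGint : Integrable G (volume.restrict I) := (hint _ hy2).integral_prod_left
  -- the inner variable
  have hstep1 : ∀ x : ℝ, ∫ y in J, (h (x, y) - M x) ^ 2 ≤ η' * (η' * G x) := by
    intro x
    have hc1 := hinc1 h hhc x
    have h1 : ∀ y ∈ J, (h (x, y) - M x) ^ 2 ≤ η' * G x := by
      intro y hy
      refine SQ_avg b η' _ hη' (fun t => h (x, t)) hc1 (h (x, y)) fun t ht => ?_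
      exact SQ_p1 b η' hη' (fun t => h (x, t)) (fun t => py h (x, t)) (hinc1 _ hyc x)
        (fun t ht => hdy x t (hJpos t ht)) y t hy ht
    have h2 : ∫ y in J, (h (x, y) - M x) ^ 2 ≤ ∫ _y in J, η' * G x :=
      setIntegral_mono_on (((hc1.sub continuousOn_const).pow 2).integrableOn_compact isCompact_Icc)
        (continuousOn_const.integrableOn_compact isCompact_Icc) measurableSet_Icc h1
    rwa [setIntegral_const, hvJ, smul_eq_mul] at h2
  -- the outer variable
  have hstep2 : ∀ x ∈ I, η' * (M x - m) ^ 2 ≤ η * A := by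
    intro x hx
    have hg : ContinuousOn (fun p : ℝ × ℝ => h (x, p.2) - h p) (I ×ˢ J) := by
      refine ContinuousOn.sub ?_ hhR
      exact hhc.comp (continuous_const.prodMk continuous_snd).continuousOn
        fun p hp => hJpos p.2 hp.2
    have hg1 : ContinuousOn (fun p : ℝ × ℝ => h (x, p.2)) (I ×ˢ J) :=
      hhc.comp (continuous_const.prodMk continuous_snd).continuousOn
        fun p hp => hJpos p.2 hp.2
    have hg2 : ContinuousOn (fun p : ℝ × ℝ => (h (x, p.2) - h p) ^ 2) (I ×ˢ J) := hg.pow 2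
    have h1 := SQ_cs ((volume.restrict I).prod (volume.restrict J))
      (fun p : ℝ × ℝ => h (x, p.2) - h p) (η * η') (by positivity) hvR (hint _ hg)
      (hint _ hg2)
    have h2 : ∫ p, (h (x, p.2) - h p) ∂((volume.restrict I).prod (volume.restrict J)) =
        η * η' * (M x - m) := by
      have h3 : ∫ p, h (x, (p : ℝ × ℝ).2) ∂((volume.restrict I).prod (volume.restrict J)) =
          η * ∫ y in J, h (x, y) := by
        have h4 := integral_fun_snd (μ := volume.restrict I) (ν := volume.restrict J)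
          (fun y => h (x, y))
        rw [h4, measureReal_restrict_apply_univ, hvI, smul_eq_mul]
      rw [integral_sub (hint _ hg1) (hint _ hhR), h3, ← hfub]
      simp only [M, hm]
      field_simp
    have h3 : ∫ p, (h (x, (p : ℝ × ℝ).2) - h p) ^ 2
        ∂((volume.restrict I).prod (volume.restrict J)) ≤ η * (η * A) := by
      rw [integral_prod_symm _ (hint _ hg2), hAH, ← integral_const_mul, ← integral_const_mul]
      refine setIntegral_mono_on (hint _ hg2).integral_prod_right
        ((hHint.const_mul _).const_mul _) measurableSet_Icc fun y hy => ?_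
      have hc2 := hinc2 h hhc y hy
      have h4 : ∀ t ∈ I, (h (x, y) - h (t, y)) ^ 2 ≤ η * H y := by
        intro t ht
        exact SQ_p1 a η hη (fun t => h (t, y)) (fun t => px h (t, y)) (hinc2 _ hxc y hy)
          (fun t _ => hdx t y (hJpos y hy)) x t hx ht
      have h5 : ∫ t in I, (h (x, y) - h (t, y)) ^ 2 ≤ ∫ _t in I, η * H y :=
        setIntegral_mono_on
          (((continuousOn_const.sub hc2).pow 2).integrableOn_compact isCompact_Icc)
          (continuousOn_const.integrableOn_compact isCompact_Icc) measurableSet_Icc h4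
      rwa [setIntegral_const, hvI, smul_eq_mul] at h5
    rw [h2] at h1
    have h6 : (η * η' * (M x - m)) ^ 2 ≤ η * η' * (η * (η * A)) :=
      h1.trans (mul_le_mul_of_nonneg_left h3 (by positivity))
    have h7 : (η ^ 2 * η') * (η' * (M x - m) ^ 2) ≤ (η ^ 2 * η') * (η * A) := by nlinarith
    exact le_of_mul_le_mul_left h7 (by positivity)
  have hstep3 : ∀ x ∈ I, ∫ y in J, (h (x, y) - m) ^ 2 ≤ η' ^ 2 * G x + η * A := by
    intro x hx
    have hc1 := hinc1 h hhc x
    have hi1 : Integrable (fun y => h (x, y)) (volume.restrict J) :=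
      hc1.integrableOn_compact isCompact_Icc
    have hi2 : Integrable (fun y => (h (x, y) - M x) ^ 2) (volume.restrict J) :=
      ((hc1.sub continuousOn_const).pow 2).integrableOn_compact isCompact_Icc
    have hMx : ∫ y in J, h (x, y) = η' * M x := by
      simp only [M]
      field_simp
    have h1 : ∫ y in J, (h (x, y) - m) ^ 2 =
        (∫ y in J, (h (x, y) - M x) ^ 2) + η' * (M x - m) ^ 2 := by
      have h2 : (fun y => (h (x, y) - m) ^ 2) =
          fun y => (h (x, y) - M x) ^ 2 + (2 * (M x - m) * h (x, y) + (m ^ 2 - M x ^ 2)) := by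
        funext y
        ring
      have hi3 : Integrable (fun y => 2 * (M x - m) * h (x, y)) (volume.restrict J) :=
        hi1.const_mul _
      have hi4 : Integrable (fun y => 2 * (M x - m) * h (x, y) + (m ^ 2 - M x ^ 2))
        (volume.restrict J) := hi3.add (integrable_const _)
      rw [h2, integral_add hi2 hi4,
        integral_add hi3 (integrable_const _), integral_const_mul, hMx,
        setIntegral_const, hvJ, smul_eq_mul]
      ring
    rw [h1]
    have h3 := hstep1 x
    have h4 := hstep2 x hx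
    have h5 : η' * (η' * G x) = η' ^ 2 * G x := by ring
    rw [h5] at h3
    exact add_le_add h3 h4
  have hmc : ContinuousOn (fun p => (h p - m) ^ 2) (I ×ˢ J) :=
    (hhR.sub continuousOn_const).pow 2
  have hfin : ∫ p in I ×ˢ J, (h p - m) ^ 2 ≤ η' ^ 2 * B + η ^ 2 * A := by
    rw [hfub, integral_prod _ (hint _ hmc)]
    have h1 : ∫ x in I, ∫ y in J, (h (x, y) - m) ^ 2 ≤ ∫ x in I, (η' ^ 2 * G x + η * A) :=
      setIntegral_mono_on (hint _ hmc).integral_prod_left
        ((hGint.const_mul _).add (integrable_const _)) measurableSet_Icc hstep3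
    refine h1.trans (le_of_eq ?_)
    have hG2 : Integrable (fun x => η' ^ 2 * G x) (volume.restrict I) := hGint.const_mul _
    rw [integral_add hG2 (integrable_const _), integral_const_mul, ← hBG,
      setIntegral_const, hvI, smul_eq_mul]
    ring
  have hsum : ∫ p in I ×ˢ J, (px h p ^ 2 + py h p ^ 2) = A + B := by
    rw [hA, hB]
    exact integral_add (hx2.integrableOn_compact hRc) (hy2.integrableOn_compact hRc)
  rw [hsum]
  refine hfin.trans ?_
  nlinarith [mul_nonneg (sq_nonneg η) hB0, mul_nonneg (sq_nonneg η') hA0]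

end SF
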