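import Pool.Agent.helper33.SF.Spec

/-!
# Project SF (MP_37e5fa_nt), row sf:DIR (Dirichlet approximation of a square root)
-/

set_option autoImplicit false

open Finset

namespace Pool.Agent.SF

theorem DIR : DIR_stmt := by
  intro E n hE hn
  obtain ⟨q, hq1, hq2⟩ := Real.exists_rat_abs_sub_le_and_den_le (√(E : ℝ)) (show 0 < n by omega)
  have hd : (1 : ℝ) ≤ q.den := by exact_mod_cast q.pos
  have hd0 : (0 : ℝ) < q.den := by linarith
  have hn1 : (1 : ℝ) ≤ n := by exact_mod_cast hn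
  have hs : 1 ≤ √(E : ℝ) := Real.one_le_sqrt.2 (by exact_mod_cast hE)
  have hbd : 1 / (((n : ℝ) + 1) * q.den) ≤ 1 / 2 := by
    apply one_div_le_one_div_of_le (by norm_num)
    nlinarith
  have hqpos : (0 : ℝ) < q := by
    have := (abs_le.1 hq1).2
    linarith
  have hqpos' : 0 < q := by exact_mod_cast hqpos
  have hnum : 0 < q.num := Rat.num_pos.2 hqpos'
  have hcast : ((q.num.natAbs : ℕ) : ℝ) = (q.num : ℝ) := by
    have h : ((q.num.natAbs : ℕ) : ℤ) = q.num := Int.natAbs_of_nonneg hnum.le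
    calc ((q.num.natAbs : ℕ) : ℝ) = (((q.num.natAbs : ℕ) : ℤ) : ℝ) := (Int.cast_natCast _).symm
      _ = (q.num : ℝ) := by rw [h]
  have hqe : (q.num : ℝ) = q * q.den := by
    have h : (q.num : ℚ) = q * q.den := (Rat.mul_den_eq_num q).symm
    exact_mod_cast h
  refine ⟨q.num.natAbs, q.den, q.pos, hq2, q.reduced, ?_⟩
  rw [hcast, hqe]
  have h1 : (q : ℝ) * q.den - q.den * √(E : ℝ) = -(q.den * (√(E : ℝ) - q)) := by ring
  rw [h1, abs_neg, abs_mul, abs_of_pos hd0]
  calc (q.den : ℝ) * |√(E : ℝ) - q| ≤ q.den * (1 / (((n : ℝ) + 1) * q.den)) :=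
        mul_le_mul_of_nonneg_left hq1 hd0.le
    _ = 1 / (n + 1) := by
        field_simp

end Pool.Agent.SF
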